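import Pool.Agent.Q280.MT.Main

/-!
# MP_5deabe_nt: conductors with at most `r` prime factors suffice

For every norm compatible family of modular elements `θ_m ∈ ℤ_p[Gal(F_m/ℚ)]` (`F_m` the largest subfield
of `ℚ(ζ_m)` of `p`-power degree, `m` a product of primes in a set `A`), with constants `(-1)^ν(m) 𝓛^alg_S`
and pairing values `h i j`, `i, j < r`, as in `Modular`: the Mazur-Tate statement
`θ_F ∈ I^r, θ_F ≡ (-1)^ν(m) 𝓛^alg_S det(h i j - 1) mod I^(r+1)` holds for all fields `F` of `p`-power
degree with conductor a product of primes in `A` if and only if it holds for the fields `F = F_m` of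
conductor `m`, where `m` is a product of at most `r` primes.
-/

set_option autoImplicit false

namespace Pool.Agent.Results.MP_5deabe_nt.ConductorsWithFewPrimes

open Pool.Agent.Q280.MT

theorem result (p : ℕ) [Fact p.Prime] (a : ℕ → ℤ) (A : Set ℕ) (r : ℕ) (D : Modular p a A r) :
    D.AllFields ↔ D.FewPrimes :=
  few_iff D

end Pool.Agent.Results.MP_5deabe_nt.ConductorsWithFewPrimes
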