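import Pool.Agent.Q15.MT.B6

/-!
# The Mazur-Tate conjecture and cyclic subfields

`E` is an elliptic curve over `ℚ` of rank `r`, `p` a prime, `F` a real abelian field of squarefree
conductor `m`, with `m` prime to `p` and to the conductor of `E`, and `p ∤ #E(𝔽_l)` for `l ∣ m`.
`MazurTate E F` is the conjecture Q1: the modular element `θ` of `F` is in the `r`-th power of the
augmentation ideal `I` of `ℤ_p[Gal(F/ℚ)]` and congruent to `(-1)^ν(m) 𝓛 R_F` modulo `I ^ (r + 1)`.
`OrderGE E F n` says that `θ` is in `I ^ n`.

**Theorem.**

1. The conjecture for `F` implies the conjecture for all subfields of `F`.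
2. If `r ≤ p`, the conjecture for `F` is equivalent to the conjecture for the cyclic subfields of
   `F` of `p`-power degree. For `n ≤ p + 1`, `θ_F` is in `I ^ n` if and only if this holds for the
   cyclic subfields of `p`-power degree.
3. If `Gal(F/ℚ)` has no element of order `p ^ 2`, the conjecture for `F` is equivalent to the
   conjecture for the subfields of degree `p` and for `ℚ`, for every rank `r`, and `θ_F` is in
   `I ^ n` if and only if this holds for the subfields of degree `p` and for `ℚ`, for every `n`.

Proof. The Euler factors and Gauss sums relate the image of `θ_F` in the group ring of a subfield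
to the modular element of the subfield. The powers of the augmentation ideal of `ℤ_p[G]`, `G` a
finite abelian group, are detected by the homomorphisms to cyclic `p`-groups for exponents up to
`p + 1`, and for all exponents by the homomorphisms to the group of order `p` if `G` has no element
of order `p ^ 2`: a homogeneous polynomial of degree at most `p` whose values are divisible by a
power of `p` has coefficients divisible by this power; in the second case the polynomials without
nonzero values over `𝔽_p` come from the relations `X^p Y = X Y^p`, which hold in the graded ring.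
-/

set_option maxHeartbeats 4000000
set_option synthInstance.maxHeartbeats 400000

namespace Pool.Agent.Results.MP_5deabe_nt.CyclicSubfields

open Pool.Agent.Q15.MT

theorem result (p : ℕ) [Fact p.Prime] (E : Curve p)
    -- the modular elements have `p`-integral coefficients
    (integral : ∀ F : RealAbelian, Admissible p E.N E.a F.m → ∃ θ, IsTheta E F θ) :
    (∀ F' F : RealAbelian, Admissible p E.N E.a F.m → F'.IsSubfield F →
      (MazurTate E F → MazurTate E F') ∧ ∀ n, OrderGE E F n → OrderGE E F' n) ∧
    (∀ F : RealAbelian, Admissible p E.N E.a F.m →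
      (E.r ≤ p → (MazurTate E F ↔ ∀ F' : RealAbelian, F'.IsSubfield F → IsCyclic F'.Gal →
        (∃ b, Nat.card F'.Gal = p ^ b) → MazurTate E F')) ∧
      ∀ n, n ≤ p + 1 → (OrderGE E F n ↔ ∀ F' : RealAbelian, F'.IsSubfield F → IsCyclic F'.Gal →
        (∃ b, Nat.card F'.Gal = p ^ b) → OrderGE E F' n)) ∧
    (∀ F : RealAbelian, Admissible p E.N E.a F.m → (∀ x : F.Gal, x ^ p ^ 2 = 1 → x ^ p = 1) →
      (MazurTate E F ↔ ∀ F' : RealAbelian, F'.IsSubfield F → Nat.card F'.Gal ∣ p →
        MazurTate E F') ∧
      ∀ n, (OrderGE E F n ↔ ∀ F' : RealAbelian, F'.IsSubfield F → Nat.card F'.Gal ∣ p →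
        OrderGE E F' n)) := by
  have hsub : ∀ F' F : RealAbelian, Admissible p E.N E.a F.m → F'.IsSubfield F →
      ∃ θ, IsTheta E F' θ := fun F' F hA h => integral F' (hA.of_dvd h.1)
  refine ⟨fun F' F hA h => ⟨fun hMT => subfield_of_field E h hA (hsub F' F hA h) hMT,
    fun n hn => order_subfield E h hA (hsub F' F hA h) n hn⟩, fun F hA => ⟨fun hr => ⟨?_, ?_⟩,
    fun n hn => ⟨?_, ?_⟩⟩, fun F hA hG => ⟨⟨?_, ?_⟩, fun n => ⟨?_, ?_⟩⟩⟩
  · exact fun hMT F' h _ _ => subfield_of_field E h hA (hsub F' F hA h) hMT
  · exact fun h => field_of_cyclic E hr F hA (integral F hA) h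
  · exact fun hn' F' h _ _ => order_subfield E h hA (hsub F' F hA h) n hn'
  · exact fun h => order_of_cyclic E F hA (integral F hA) n hn h
  · exact fun hMT F' h _ => subfield_of_field E h hA (hsub F' F hA h) hMT
  · exact fun h => field_of_degree E F hG hA (integral F hA) h
  · exact fun hn' F' h _ => order_subfield E h hA (hsub F' F hA h) n hn'
  · exact fun h => order_of_degree E F hG hA (integral F hA) n h

end Pool.Agent.Results.MP_5deabe_nt.CyclicSubfields
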